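import Pool.Agent.Run7.h391.Met.Tool

/-!
# Piece CR of the project of MP_dd21b1_pr: mixed moments of distant scales
-/

set_option autoImplicit false

open MeasureTheory Filter Topology ENNReal
open Run7.h146.Met
open Classical

namespace Run7.h391.Met

lemma gz_eq {d : ℕ} (ε t t' : ℝ) (z y : X d) : gz ε t t' (z, y) = fz ε t z * fz ε t' y := by
  unfold gz fz
  by_cases h1 : ‖pos z t‖ ≤ ε ∧ ‖z.2‖ = 1
  · by_cases h2 : ‖pos y t'‖ ≤ ε ∧ ‖y.2‖ = 1
    · rw [if_pos ⟨h1, h2⟩, if_pos h1, if_pos h2, mul_one]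
    · rw [if_neg (fun h => h2 h.2), if_neg h2, mul_zero]
  · rw [if_neg (fun h => h1 h.1), if_neg h1, zero_mul]

lemma Ifz {d : ℕ} {ε CG : ℝ} (hCG : ∀ (B : Set (V d)) (t : ℝ), MeasurableSet B →
      mB B {z | ‖pos z t‖ ≤ ε} ≤ ENNReal.ofReal CG) (B : Set (V d)) (hB : MeasurableSet B) (n : ℝ) :
    ∫⁻ z, fz ε n z ∂(mB B) ≤ ENNReal.ofReal CG := by
  unfold fz
  rw [show (fun z : X d => if ‖pos z n‖ ≤ ε ∧ ‖z.2‖ = 1 then (1 : ℝ≥0∞) else 0) =
    Set.indicator {z : X d | ‖pos z n‖ ≤ ε ∧ ‖z.2‖ = 1} 1 from by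
      funext z; simp [Set.indicator_apply]]
  rw [lintegral_indicator_one (meas_cov ε n)]
  exact (measure_mono fun z hz => hz.1).trans (hCG B n hB)

lemma ae_unit (hMB : S_MB) {d : ℕ} (hd : 0 < d) (Q : ℝ) :
    ∀ᵐ F ∂(PQ d Q), ∀ y ∈ F, ‖y.2‖ = 1 := by
  obtain ⟨-, -, -, hMB2⟩ := hMB d hd
  obtain ⟨-, -, -, hunit⟩ := hMB2 (Metric.ball (0 : V d) Q) Metric.isOpen_ball.measurableSet
    measure_ball_lt_top.ne
  rw [ae_iff]; simpa [PQ] using hunit

/-- the exponential beats the powers -/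
lemma exp_beats (j : ℕ) (hj : 1 ≤ j) {C : ℝ} (hC : 1 ≤ C) {p : ℝ} (hp : 0 ≤ p) :
    (2 : ℝ) ^ j * (p + C * Real.exp (-(2 : ℝ) ^ (j - 1))) ≤
      8 * C * ((2 : ℝ) ^ j * p + (1 / 2) ^ j) := by
  set h : ℝ := (2 : ℝ) ^ (j - 1) with hh
  have hJ : (2 : ℝ) ^ j = 2 * h := by
    rw [hh, ← pow_succ']; congr 1; omega
  have hpos : 0 < h := by positivity
  have h1 : (1 / 2 : ℝ) ^ j = (2 * h)⁻¹ := by rw [← hJ, one_div, inv_pow]
  rw [h1, hJ]
  have he : h ^ 2 / 2 ≤ Real.exp h := by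
    have := Real.quadratic_le_exp_of_nonneg hpos.le
    nlinarith
  have he2 : Real.exp (-h) ≤ 2 / h ^ 2 := by
    rw [Real.exp_neg, inv_le_comm₀ (Real.exp_pos _) (by positivity)]
    rw [inv_div]; exact he
  have h3 : 2 * h * Real.exp (-h) ≤ 8 * (2 * h)⁻¹ := by
    calc 2 * h * Real.exp (-h) ≤ 2 * h * (2 / h ^ 2) := by gcongr
      _ = 8 * (2 * h)⁻¹ := by field_simp; norm_num
  nlinarith [mul_nonneg hpos.le hp, mul_le_mul_of_nonneg_left h3 (by linarith : (0 : ℝ) ≤ C)]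

theorem t_CR : S_MB → S_MEAS → S_PAIR → S_GI → S_CR := by
  intro hMB hMEAS hPAIR hGI d ε κ C r₀ hd hε hc
  obtain ⟨CG, hCG1, hCG'⟩ := hGI d ε hd hε
  have hCG : ∀ (B : Set (V d)) (t : ℝ), MeasurableSet B →
      mB B {z | ‖pos z t‖ ≤ ε} ≤ ENNReal.ofReal CG := fun B t hB => (hCG' B t hB).1
  have hκ : 0 < κ := hc.loc.1
  have hC1 : 1 ≤ C := hc.loc.2.2.1
  have hr1 : 1 ≤ r₀ := hc.loc.2.2.2.1
  obtain ⟨k₀, hk₀⟩ := exists_pow_lt_of_lt_one (show (0 : ℝ) < κ / 2 by positivity)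
    (by norm_num : (1 / 2 : ℝ) < 1)
  refine ⟨k₀, fun k hk => ⟨(CG * (8 * C)) ^ 2, ?_, fun R => ?_⟩⟩
  · have : 1 ≤ CG * (8 * C) := by nlinarith
    nlinarith
  obtain ⟨a, ha⟩ := pow_unbounded_of_one_lt (2 * (|R| + ε) + 2 * r₀ + 8 * ε + 8)
    (by norm_num : (1 : ℝ) < 2)
  refine ⟨max a (k + 1), fun j j' hj hjj A Q hA hQ => ?_⟩
  have hja : a ≤ j := le_trans (le_max_left _ _) hj
  have hjk : k + 1 ≤ j := le_trans (le_max_right _ _) hj
  -- scales
  have hscale : ∀ i : ℕ, k + 1 ≤ i → (2 : ℝ) ^ i = 2 * (2 : ℝ) ^ (i - 1) ∧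
      (2 : ℝ) ^ (i - k) ≤ κ * (2 : ℝ) ^ (i - 1) ∧ (2 : ℝ) ^ (i - k) ≤ (2 : ℝ) ^ i := by
    intro i hi
    have e1 : (2 : ℝ) ^ i = 2 * (2 : ℝ) ^ (i - 1) := by
      rw [← pow_succ']; congr 1; omega
    have e2 : (2 : ℝ) ^ (i - k) * (2 : ℝ) ^ k = (2 : ℝ) ^ i := by
      rw [← pow_add]; congr 1; omega
    have e3 : (1 / 2 : ℝ) ^ k ≤ κ / 2 :=
      le_trans (pow_le_pow_of_le_one (by norm_num) (by norm_num) hk) hk₀.le
    have e4 : (2 : ℝ) ^ (i - k) = (2 : ℝ) ^ i * (1 / 2) ^ k := by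
      rw [← e2, mul_assoc, ← mul_pow]; norm_num
    refine ⟨e1, ?_, ?_⟩
    · rw [e4, e1]
      have : (0 : ℝ) < (2 : ℝ) ^ (i - 1) := by positivity
      nlinarith
    · exact pow_le_pow_right₀ (by norm_num) (Nat.sub_le _ _)
  obtain ⟨s1, s2, s3⟩ := hscale j hjk
  obtain ⟨s1', s2', s3'⟩ := hscale j' (by omega)
  have hJbig : 2 * (|R| + ε) + 2 * r₀ + 8 * ε + 8 < (2 : ℝ) ^ j :=
    lt_of_lt_of_le ha (pow_le_pow_right₀ (by norm_num) hja)
  have hJJ : 8 * (2 : ℝ) ^ j ≤ (2 : ℝ) ^ j' := by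
    calc 8 * (2 : ℝ) ^ j = (2 : ℝ) ^ (j + 3) := by rw [pow_add]; norm_num; ring
      _ ≤ (2 : ℝ) ^ j' := pow_le_pow_right₀ (by norm_num) hjj
  have hRabs := le_abs_self R
  have hR0 := abs_nonneg R
  set h : ℝ := (2 : ℝ) ^ (j - 1) with hh
  set h' : ℝ := (2 : ℝ) ^ (j' - 1) with hh'
  set t : ℝ := (2 : ℝ) ^ (j - k) with ht
  set t' : ℝ := (2 : ℝ) ^ (j' - k) with ht'
  have t0 : 0 ≤ t := by positivity
  have t0' : 0 ≤ t' := by positivity
  have hRQ : R ≤ Q := by linarith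
  have hpp : 0 ≤ pp d ε t := (hc.rng t).1
  have hpp' : 0 ≤ pp d ε t' := (hc.rng t').1
  set x : ℝ := pp d ε t + C * Real.exp (-h) with hx
  set x' : ℝ := pp d ε t' + C * Real.exp (-h') with hx'
  have hx0 : 0 ≤ x := by positivity
  have hx0' : 0 ≤ x' := by positivity
  obtain ⟨-, -, -, -, -, -, -, -, -, hUn, -⟩ := hMEAS d ε hd hε
  -- the estimate for two times
  have key : ∀ n ∈ Finset.Ico (2 ^ j : ℕ) (2 ^ (j + 1) : ℕ),
      ∀ m ∈ Finset.Ico (2 ^ j' : ℕ) (2 ^ (j' + 1) : ℕ),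
      ∫⁻ F in {F | res (Metric.ball 0 R) F ∈ A}, Un ε (n : ℝ) F * Un ε (m : ℝ) F ∂(PQ d Q) ≤
        PQ d R A * ENNReal.ofReal (CG ^ 2 * (x * x')) := by
    intro n hn m hm
    rw [Finset.mem_Ico] at hn hm
    have n1 : (2 : ℝ) ^ j ≤ n := by exact_mod_cast hn.1
    have n2 : (n : ℝ) ≤ 2 * (2 : ℝ) ^ j := by
      rw [← pow_succ']; exact_mod_cast hn.2.le
    have m1 : (2 : ℝ) ^ j' ≤ m := by exact_mod_cast hm.1
    have m2 : (m : ℝ) ≤ 2 * (2 : ℝ) ^ j' := by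
      rw [← pow_succ']; exact_mod_cast hm.2.le
    have hnm : (n : ℝ) ≤ m := by linarith
    have hmn : ¬ ((m : ℝ) - n ≤ 2 * ε) := by
      rw [not_le]; linarith
    have e1 : ∫⁻ F in {F | res (Metric.ball 0 R) F ∈ A}, Un ε (n : ℝ) F * Un ε (m : ℝ) F
        ∂(PQ d Q) ≤ ∫⁻ F in {F | res (Metric.ball 0 R) F ∈ A}, (∑ z ∈ F, ∑ y ∈ del z F,
          if ENNReal.ofReal (n : ℝ) < dt ε F z ∧ ENNReal.ofReal (m : ℝ) < dt ε F y then
            gz ε n m (z, y) else 0) ∂(poi (mB (Metric.ball (0 : V d) Q))) := by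
      refine lintegral_mono_ae (ae_restrict_of_ae ?_)
      filter_upwards [ae_unit hMB hd Q] with F hF
      refine (UnUn hF hnm).trans ?_
      rw [if_neg hmn, zero_add]
    refine e1.trans ?_
    rw [hPAIR d ε hd hε n m R (Metric.ball (0 : V d) Q) A (gz ε n m)
      Metric.isOpen_ball.measurableSet measure_ball_lt_top.ne hA (meas_gz ε n m) (by
        intro z y hzy
        unfold gz
        rw [if_neg]
        rintro ⟨⟨h3, h4⟩, h5, h6⟩
        rw [mem_ball_zero_iff, mem_ball_zero_iff] at hzy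
        rcases hzy with hzy | hzy
        · have := (far h4 (by positivity) h3).1
          simp only at this hzy
          linarith
        · have := (far h6 (by positivity) h5).1
          simp only at this hzy
          linarith)]
    have hpt : ∀ z y : X d, gz ε n m (z, y) * poi (mB (Metric.ball (0 : V d) Q))
        {F | res (Metric.ball 0 R) F ∈ A ∧ al2 ε z n y m F} ≤
        fz ε n z * (fz ε m y * (PQ d R A * ENNReal.ofReal (x * x'))) := by
      intro z y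
      rw [gz_eq, mul_assoc]
      by_cases hz : ‖pos z n‖ ≤ ε ∧ ‖z.2‖ = 1
      · by_cases hy : ‖pos y m‖ ≤ ε ∧ ‖y.2‖ = 1
        · refine mul_le_mul_right (mul_le_mul_right ?_ _) _
          have hf := far hz.2 (by positivity) hz.1
          have hf' := far hy.2 (by positivity) hy.1
          have hb := norm_sub_norm_le y.1 z.1
          rw [norm_sub_rev] at hb
          have := two' hc (n := n) (m := m) (t := t) (t' := t') (r := h) (r' := h') (R := R)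
            (Q := Q) hA (by positivity) (by positivity) t0 (by linarith) s2 (by linarith) t0'
            (by linarith) s2' (by linarith) (by linarith) (by linarith) (by linarith)
            (by linarith) hRQ hz.2 hy.2 hz.1 hy.1 (by linarith)
          refine this.trans ?_
          rw [mul_assoc, ← ENNReal.ofReal_mul hx0]
        · simp [fz, hy]
      · simp [fz, hz]
    calc ∫⁻ z, ∫⁻ y, gz ε n m (z, y) * poi (mB (Metric.ball (0 : V d) Q))
          {F | res (Metric.ball 0 R) F ∈ A ∧ al2 ε z n y m F} ∂(mB (Metric.ball (0 : V d) Q))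
            ∂(mB (Metric.ball (0 : V d) Q))
        ≤ ∫⁻ z, ∫⁻ y, fz ε n z * (fz ε m y * (PQ d R A * ENNReal.ofReal (x * x')))
            ∂(mB (Metric.ball (0 : V d) Q)) ∂(mB (Metric.ball (0 : V d) Q)) :=
          lintegral_mono fun z => lintegral_mono fun y => hpt z y
      _ = (∫⁻ z, fz ε n z ∂(mB (Metric.ball (0 : V d) Q))) *
          ((∫⁻ y, fz ε m y ∂(mB (Metric.ball (0 : V d) Q))) *
            (PQ d R A * ENNReal.ofReal (x * x'))) := by
          rw [← lintegral_mul_const _ (meas_fz ε n)]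
          refine lintegral_congr fun z => ?_
          rw [lintegral_const_mul _ ((meas_fz ε m).mul_const _), lintegral_mul_const _
            (meas_fz ε m)]
      _ ≤ ENNReal.ofReal CG * (ENNReal.ofReal CG * (PQ d R A * ENNReal.ofReal (x * x'))) := by
          gcongr
          · exact Ifz hCG _ Metric.isOpen_ball.measurableSet _
          · exact Ifz hCG _ Metric.isOpen_ball.measurableSet _
      _ = PQ d R A * ENNReal.ofReal (CG ^ 2 * (x * x')) := by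
          rw [ENNReal.ofReal_mul (p := CG ^ 2) (by positivity), ENNReal.ofReal_pow (by linarith)]; ring
  -- summation
  have hsum : ∫⁻ F in {F | res (Metric.ball 0 R) F ∈ A}, Vj ε j F * Vj ε j' F ∂(PQ d Q) =
      ∑ n ∈ Finset.Ico (2 ^ j : ℕ) (2 ^ (j + 1) : ℕ), ∑ m ∈ Finset.Ico (2 ^ j' : ℕ)
        (2 ^ (j' + 1) : ℕ), ∫⁻ F in {F | res (Metric.ball 0 R) F ∈ A},
          Un ε (n : ℝ) F * Un ε (m : ℝ) F ∂(PQ d Q) := by
    unfold Vj
    simp_rw [Finset.sum_mul_sum]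
    rw [lintegral_finsetSum]
    · refine Finset.sum_congr rfl fun n _ => ?_
      rw [lintegral_finsetSum]
      intro m _
      exact (hUn n).mul (hUn m)
    · intro n _
      exact Finset.measurable_fun_sum _ fun m _ => (hUn n).mul (hUn m)
  rw [hsum]
  have hcard : ∀ i : ℕ, (Finset.Ico (2 ^ i : ℕ) (2 ^ (i + 1) : ℕ)).card = 2 ^ i := by
    intro i; rw [Nat.card_Ico, pow_succ]; omega
  calc ∑ n ∈ Finset.Ico (2 ^ j : ℕ) (2 ^ (j + 1) : ℕ), ∑ m ∈ Finset.Ico (2 ^ j' : ℕ)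
        (2 ^ (j' + 1) : ℕ), ∫⁻ F in {F | res (Metric.ball 0 R) F ∈ A},
          Un ε (n : ℝ) F * Un ε (m : ℝ) F ∂(PQ d Q)
      ≤ ∑ n ∈ Finset.Ico (2 ^ j : ℕ) (2 ^ (j + 1) : ℕ), ∑ m ∈ Finset.Ico (2 ^ j' : ℕ)
        (2 ^ (j' + 1) : ℕ), PQ d R A * ENNReal.ofReal (CG ^ 2 * (x * x')) :=
        Finset.sum_le_sum fun n hn => Finset.sum_le_sum fun m hm => key n hn m hm
    _ = ENNReal.ofReal ((2 : ℝ) ^ j) * (ENNReal.ofReal ((2 : ℝ) ^ j') *
          (PQ d R A * ENNReal.ofReal (CG ^ 2 * (x * x')))) := by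
        rw [Finset.sum_const, Finset.sum_const, hcard, hcard, nsmul_eq_mul, nsmul_eq_mul]
        have e : ∀ i : ℕ, ((2 ^ i : ℕ) : ℝ≥0∞) = ENNReal.ofReal ((2 : ℝ) ^ i) := by
          intro i
          rw [ENNReal.ofReal_pow (by norm_num)]
          simp
        rw [e, e]
    _ = PQ d R A * ENNReal.ofReal ((2 : ℝ) ^ j * ((2 : ℝ) ^ j' * (CG ^ 2 * (x * x')))) := by
        rw [ENNReal.ofReal_mul (p := (2 : ℝ) ^ j) (by positivity),
          ENNReal.ofReal_mul (p := (2 : ℝ) ^ j') (by positivity)]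
        ring
    _ ≤ _ := by
        refine mul_le_mul_right (ENNReal.ofReal_le_ofReal ?_) _
        have b1 := exp_beats j (by omega) hC1 hpp
        have b2 := exp_beats j' (by omega) hC1 hpp'
        calc (2 : ℝ) ^ j * ((2 : ℝ) ^ j' * (CG ^ 2 * (x * x')))
            = CG ^ 2 * (((2 : ℝ) ^ j * x) * ((2 : ℝ) ^ j' * x')) := by ring
          _ ≤ CG ^ 2 * ((8 * C * ((2 : ℝ) ^ j * pp d ε t + (1 / 2) ^ j)) *
              (8 * C * ((2 : ℝ) ^ j' * pp d ε t' + (1 / 2) ^ j'))) := by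
              gcongr
          _ = _ := by ring

end Run7.h391.Met
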