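import Pool.Agent.Run7.h391.Met.CR

/-!
# Piece SMA of the project of MP_dd21b1_pr: mixed moments at two times of the same scale
-/

set_option autoImplicit false

open MeasureTheory Filter Topology ENNReal
open Run7.h146.Met
open Classical

namespace Run7.h391.Met

/-- two meteors, forget the second one -/
lemma near1 {d : ℕ} {ε κ C r₀ : ℝ} (hc : Core d ε κ C r₀) {n m t r R Q : ℝ}
    {A : Set (Finset (X d))} (hA : MeasurableSet A) (hn : 0 ≤ n) (hnm : n ≤ m)
    (ht0 : 0 ≤ t) (htn : t ≤ n) (htr : t ≤ κ * r) (hr : r₀ ≤ r)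
    (h1 : n + ε + r ≤ Q) (h2 : R + r ≤ n - ε)
    (hRQ : R ≤ Q) {z y : X d} (hz : ‖z.2‖ = 1) (hzn : ‖pos z n‖ ≤ ε) :
    poi (mB (Metric.ball (0 : V d) Q)) {F | res (Metric.ball 0 R) F ∈ A ∧ al2 ε z n y m F} ≤
      PQ d R A * ENNReal.ofReal (pp d ε t + C * Real.exp (-r)) := by
  have hf := far hz hn hzn
  have e1 : poi (mB (Metric.ball (0 : V d) Q)) {F | res (Metric.ball 0 R) F ∈ A ∧
      al2 ε z n y m F} ≤ poi (mB (Metric.ball (0 : V d) Q)) {F | res (Metric.ball 0 R) F ∈ A ∧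
      alive ε z n F} := by
    by_cases hzy : z = y
    · subst hzy
      refine measure_mono ?_
      rintro F ⟨h3, h4⟩
      refine ⟨h3, ?_⟩
      have h5 := h4.1
      have e : ins z (ins z F) = ins z F := by unfold ins; ext w; simp
      rw [e] at h5
      exact h5
    · exact hc.near n m R z y _ A hn hnm hzy Metric.isOpen_ball.measurableSet
        measure_ball_lt_top.ne
  refine e1.trans ?_
  refine le_trans (measure_mono ?_) (hc.one r t R z (Metric.ball 0 Q) A hr ht0 htr hz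
    Metric.isOpen_ball.measurableSet measure_ball_lt_top.ne hA ?_ ?_ ?_).1
  · rintro F ⟨h3, h4⟩; exact ⟨h3, alive_mono htn h4⟩
  · intro x hx
    rw [mem_ball_zero_iff]
    rw [Metric.mem_ball, dist_eq_norm] at hx
    have := norm_sub_norm_le x z.1
    linarith
  · exact Metric.ball_subset_ball hRQ
  · apply Metric.ball_disjoint_ball
    rw [dist_zero_right]; linarith

/-- nearly parallel meteors which cover the origin at time `m` -/
noncomputable def pz {d : ℕ} (ε m δ : ℝ) (z y : X d) : ℝ≥0∞ :=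
  if ‖pos y m‖ ≤ ε ∧ ‖y.2 - z.2‖ ≤ δ then 1 else 0

lemma meas_par {d : ℕ} (ε m δ : ℝ) (z : X d) :
    MeasurableSet {y : X d | ‖pos y m‖ ≤ ε ∧ ‖y.2 - z.2‖ ≤ δ} := by
  apply MeasurableSet.inter
  · exact (isClosed_le (cont_pos m).norm continuous_const).measurableSet
  · exact (isClosed_le ((continuous_snd.sub continuous_const).norm) continuous_const).measurableSet

lemma meas_pz {d : ℕ} (ε m δ : ℝ) (z : X d) : Measurable (pz ε m δ z) :=
  Measurable.ite (meas_par ε m δ z) measurable_const measurable_const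

lemma Ipz {d : ℕ} {ε CG : ℝ} (hCG : ∀ (B : Set (V d)) (t : ℝ), MeasurableSet B →
      ∀ (v : V d) (δ : ℝ), ‖v‖ = 1 → 0 < δ →
        mB B {z | ‖pos z t‖ ≤ ε ∧ ‖z.2 - v‖ ≤ δ} ≤ ENNReal.ofReal (CG * δ))
    (B : Set (V d)) (hB : MeasurableSet B) (m δ : ℝ) (hδ : 0 < δ) (z : X d) (hz : ‖z.2‖ = 1) :
    ∫⁻ y, pz ε m δ z y ∂(mB B) ≤ ENNReal.ofReal (CG * δ) := by
  unfold pz
  rw [show (fun y : X d => if ‖pos y m‖ ≤ ε ∧ ‖y.2 - z.2‖ ≤ δ then (1 : ℝ≥0∞) else 0) =
    Set.indicator {y : X d | ‖pos y m‖ ≤ ε ∧ ‖y.2 - z.2‖ ≤ δ} 1 from by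
      funext y; simp [Set.indicator_apply]]
  rw [lintegral_indicator_one (meas_par ε m δ z)]
  exact hCG B m hB z.2 δ hz hδ

theorem t_SMA : S_MB → S_SEP → S_MEAS → S_SING → S_PAIR → S_GI → S_SMA := by
  intro hMB hSEP hMEAS hSING hPAIR hGI d ε κ C r₀ hd2 hε hc
  have hd : 0 < d := by omega
  obtain ⟨CG, hCG1, hCG'⟩ := hGI d ε hd hε
  have hCG : ∀ (B : Set (V d)) (t : ℝ), MeasurableSet B →
      mB B {z | ‖pos z t‖ ≤ ε} ≤ ENNReal.ofReal CG := fun B t hB => (hCG' B t hB).1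
  have hCG2 : ∀ (B : Set (V d)) (t : ℝ), MeasurableSet B →
      ∀ (v : V d) (δ : ℝ), ‖v‖ = 1 → 0 < δ →
        mB B {z | ‖pos z t‖ ≤ ε ∧ ‖z.2 - v‖ ≤ δ} ≤ ENNReal.ofReal (CG * δ) :=
    fun B t hB => (hCG' B t hB).2 hd2
  have hκ : 0 < κ := hc.loc.1
  have hC1 : 1 ≤ C := hc.loc.2.2.1
  have hr1 : 1 ≤ r₀ := hc.loc.2.2.2.1
  obtain ⟨k₁, hk₁⟩ := exists_pow_lt_of_lt_one (show (0 : ℝ) < κ / 4 by positivity)
    (by norm_num : (1 / 2 : ℝ) < 1)
  refine ⟨k₁ + 1, fun k hk => ⟨2 * CG ^ 2 * C ^ 2, ?_, fun R => ?_⟩⟩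
  · have h1 : 1 ≤ CG ^ 2 := one_le_pow₀ hCG1
    have h2 : 1 ≤ C ^ 2 := one_le_pow₀ hC1
    nlinarith
  obtain ⟨a, ha⟩ := pow_unbounded_of_one_lt (4 * (|R| + ε) + 4 * r₀ + 16 * ε + 16)
    (by norm_num : (1 : ℝ) < 2)
  refine ⟨2 * max a (k + 3), fun j hj A Q hA hQ n m hn0 hnm0 hm0 => ?_⟩
  set b : ℕ := j / 2 with hb
  have hbmax : max a (k + 3) ≤ b := by omega
  have hba : a ≤ b := le_trans (le_max_left _ _) hbmax
  have hbk : k + 3 ≤ b := le_trans (le_max_right _ _) hbmax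
  have hbj : b ≤ j := Nat.div_le_self _ _
  -- scales
  have e3 : (1 / 2 : ℝ) ^ k ≤ κ / 4 :=
    le_trans (pow_le_pow_of_le_one (by norm_num) (by norm_num) (by omega)) hk₁.le
  have epow : ∀ i : ℕ, k ≤ i → (2 : ℝ) ^ (i - k) = (2 : ℝ) ^ i * (1 / 2) ^ k := by
    intro i hi
    have e2 : (2 : ℝ) ^ (i - k) * (2 : ℝ) ^ k = (2 : ℝ) ^ i := by
      rw [← pow_add]; congr 1; omega
    rw [← e2, mul_assoc, ← mul_pow]; norm_num
  have hscale : ∀ i : ℕ, b ≤ i → (2 : ℝ) ^ i = 4 * (2 : ℝ) ^ (i - 2) ∧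
      (2 : ℝ) ^ (i - k) ≤ κ * (2 : ℝ) ^ (i - 2) ∧ 2 * (2 : ℝ) ^ (i - k) ≤ (2 : ℝ) ^ i ∧
      4 * (|R| + ε) + 4 * r₀ + 16 * ε + 16 < (2 : ℝ) ^ i := by
    intro i hi
    have e1 : (2 : ℝ) ^ i = 4 * (2 : ℝ) ^ (i - 2) := by
      have : (2 : ℝ) ^ i = (2 : ℝ) ^ (i - 2) * 2 ^ 2 := by
        rw [← pow_add]; congr 1; omega
      rw [this]; ring
    refine ⟨e1, ?_, ?_, ?_⟩
    · rw [epow i (by omega), e1]
      have : (0 : ℝ) < (2 : ℝ) ^ (i - 2) := by positivity
      nlinarith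
    · rw [← pow_succ']
      exact pow_le_pow_right₀ (by norm_num) (by omega)
    · exact lt_of_lt_of_le ha (pow_le_pow_right₀ (by norm_num) (le_trans hba hi))
  obtain ⟨-, -, s3, hJbig⟩ := hscale j hbj
  have s1 : (2 : ℝ) ^ j = 2 * (2 : ℝ) ^ (j - 1) := by
    rw [← pow_succ']; congr 1; omega
  have s2 : (2 : ℝ) ^ (j - k) ≤ κ * (2 : ℝ) ^ (j - 1) := by
    rw [epow j (by omega), s1]
    have : (0 : ℝ) < (2 : ℝ) ^ (j - 1) := by positivity
    nlinarith
  have hRabs := le_abs_self R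
  have hR0 := abs_nonneg R
  have n1 : (2 : ℝ) ^ j ≤ n := by exact_mod_cast hn0
  have n2 : (n : ℝ) ≤ m := by exact_mod_cast hnm0
  have n3 : (m : ℝ) ≤ 2 * (2 : ℝ) ^ j := by
    rw [← pow_succ']; exact_mod_cast hm0.le
  have hJpos : (0 : ℝ) < (2 : ℝ) ^ j := by positivity
  have hn00 : (0 : ℝ) ≤ n := by positivity
  have hm00 : (0 : ℝ) ≤ m := by positivity
  have hnpos : (0 : ℝ) < n := by linarith
  have hRQ : R ≤ Q := by linarith
  set h : ℝ := (2 : ℝ) ^ (j - 1) with hh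
  set t : ℝ := (2 : ℝ) ^ (j - k) with ht
  have t0 : 0 ≤ t := by positivity
  have hpp : 0 ≤ pp d ε t := (hc.rng t).1
  set q : ℝ := pp d ε t + Real.exp (-h) with hq
  have hq0 : 0 ≤ q := by positivity
  have hqC : pp d ε t + C * Real.exp (-h) ≤ C * q := by
    rw [hq]; nlinarith [Real.exp_pos (-h)]
  set qi : ℕ → ℝ := fun i => pp d ε ((2 : ℝ) ^ (i - k)) + Real.exp (-(2 : ℝ) ^ (i - 2)) with hqi
  have hqi0 : ∀ i, 0 ≤ qi i := fun i => add_nonneg (hc.rng _).1 (Real.exp_pos _).le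
  have hqiC : ∀ i, pp d ε ((2 : ℝ) ^ (i - k)) + C * Real.exp (-(2 : ℝ) ^ (i - 2)) ≤ C * qi i := by
    intro i
    have := (hc.rng ((2 : ℝ) ^ (i - k))).1
    simp only [hqi]; nlinarith [Real.exp_pos (-(2 : ℝ) ^ (i - 2))]
  obtain ⟨-, -, -, -, -, -, -, -, -, hUn, -⟩ := hMEAS d ε hd hε
  set B : Set (V d) := Metric.ball 0 Q with hB
  have hBm : MeasurableSet B := Metric.isOpen_ball.measurableSet
  -- the splitting
  have e1 : ∫⁻ F in {F | res (Metric.ball 0 R) F ∈ A}, Un ε (n : ℝ) F * Un ε (m : ℝ) F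
      ∂(PQ d Q) ≤ (∫⁻ F in {F | res (Metric.ball 0 R) F ∈ A},
        (if (m : ℝ) - n ≤ 2 * ε then Un ε (n : ℝ) F else 0) ∂(PQ d Q)) +
        ∫⁻ F in {F | res (Metric.ball 0 R) F ∈ A}, (∑ z ∈ F, ∑ y ∈ del z F,
        if ENNReal.ofReal (n : ℝ) < dt ε F z ∧ ENNReal.ofReal (m : ℝ) < dt ε F y then
          gz ε n m (z, y) else 0) ∂(poi (mB B)) := by
    refine le_trans (lintegral_mono_ae (ae_restrict_of_ae ?_)) (le_of_eq (lintegral_add_left ?_ _))
    · filter_upwards [ae_unit hMB hd Q] with F hF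
      exact UnUn hF n2
    · split_ifs
      · exact hUn n
      · exact measurable_const
  refine e1.trans ?_
  rw [hPAIR d ε hd hε n m R B A (gz ε n m)
      hBm measure_ball_lt_top.ne hA (meas_gz ε n m) (by
        intro z y hzy
        unfold gz
        rw [if_neg]
        rintro ⟨⟨h3, h4⟩, h5, h6⟩
        rw [mem_ball_zero_iff, mem_ball_zero_iff] at hzy
        rcases hzy with hzy | hzy
        · have := (far h4 hn00 h3).1
          simp only at this hzy
          linarith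
        · have := (far h6 hm00 h5).1
          simp only at this hzy
          linarith)]
  -- the diagonal
  have hdiag : (∫⁻ F in {F | res (Metric.ball 0 R) F ∈ A},
        (if (m : ℝ) - n ≤ 2 * ε then Un ε (n : ℝ) F else 0) ∂(PQ d Q)) ≤
      PQ d R A * ENNReal.ofReal (2 * CG ^ 2 * C ^ 2 * (if (m : ℝ) - n ≤ 2 * ε then q else 0)) := by
    split_ifs with h3
    · refine (first hMB hSING hd hε hc hCG1 hCG (n := n) (t := t) (r := h) hn00 hA t0
        (by linarith) s2 (by linarith) (by linarith) (by linarith) hRQ).trans ?_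
      refine mul_le_mul_right (ENNReal.ofReal_le_ofReal ?_) _
      calc CG * (pp d ε t + C * Real.exp (-h)) ≤ CG * (C * q) := by gcongr
        _ = CG * C * q := by ring
        _ ≤ 2 * CG ^ 2 * C ^ 2 * q := by
          refine mul_le_mul_of_nonneg_right ?_ hq0
          have h4 : 1 ≤ CG * C := by nlinarith
          nlinarith
    · simp
  -- the pairs
  set δa : ℝ := (2 : ℝ) ^ b / (2 : ℝ) ^ j with hδa
  have hδa0 : 0 < δa := by positivity
  set δi : ℕ → ℝ := fun i => (2 : ℝ) ^ (i + 1) / (2 : ℝ) ^ j with hδi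
  have hδi0 : ∀ i, 0 < δi i := fun i => by simp only [hδi]; positivity
  set Ka : ℝ≥0∞ := PQ d R A * ENNReal.ofReal (C * q) with hKa
  set Ki : ℕ → ℝ≥0∞ := fun i => PQ d R A * ENNReal.ofReal ((C * qi i) ^ 2) with hKi
  have hpt : ∀ z y : X d, ‖pos z n‖ ≤ ε → ‖z.2‖ = 1 →
      gz ε n m (z, y) * poi (mB B) {F | res (Metric.ball 0 R) F ∈ A ∧ al2 ε z n y m F} ≤
      (if m - n < 2 ^ b then pz ε m δa z y * Ka else 0) +
        ∑ i ∈ Finset.Icc b (j + 1), if m - n < 2 ^ (i + 1) then pz ε m (δi i) z y * Ki i else 0 := by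
    intro z y hz1 hz2
    rw [gz_eq]
    by_cases hy : ‖pos y m‖ ≤ ε ∧ ‖y.2‖ = 1
    · have eg : fz ε n z * fz ε m y = 1 := by simp [fz, hz1, hz2, hy.1, hy.2]
      rw [eg, one_mul]
      have hvv : ‖z.2 - y.2‖ ≤ 2 := by
        have := norm_sub_le z.2 y.2
        linarith [hy.2]
      obtain ⟨hs1, -, -⟩ := hSEP d ε n m z y hε hn00 n2 hz2 hy.2 hz1 hy.1
      set s : ℝ := max ((m : ℝ) - n) (n * ‖z.2 - y.2‖) with hs
      have sa : (m : ℝ) - n ≤ s := le_max_left _ _
      have sb : n * ‖z.2 - y.2‖ ≤ s := le_max_right _ _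
      have hcast : ((m - n : ℕ) : ℝ) = (m : ℝ) - n := by
        rw [Nat.cast_sub hnm0]
      have hpar : ∀ w : ℝ, s ≤ w → ‖y.2 - z.2‖ ≤ w / (2 : ℝ) ^ j := by
        intro w hw
        rw [norm_sub_rev, le_div_iff₀ hJpos]
        calc ‖z.2 - y.2‖ * (2 : ℝ) ^ j ≤ ‖z.2 - y.2‖ * n := by gcongr
          _ ≤ w := by linarith
      by_cases hcase : s < (2 : ℝ) ^ b
      · -- close
        have hmn : m - n < 2 ^ b := by
          have : ((m - n : ℕ) : ℝ) < ((2 ^ b : ℕ) : ℝ) := by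
            rw [hcast]; push_cast; linarith
          exact_mod_cast this
        rw [if_pos hmn]
        have hp1 : pz ε m δa z y = 1 := by
          unfold pz
          rw [if_pos ⟨hy.1, hpar _ hcase.le⟩]
        rw [hp1, one_mul]
        refine le_trans ?_ le_self_add
        refine (near1 hc (t := t) (r := h) hA hn00 n2 t0 (by linarith) s2
          (by linarith) (by linarith) (by linarith) hRQ hz2 hz1).trans ?_
        exact mul_le_mul_right (ENNReal.ofReal_le_ofReal hqC) _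
      · -- far
        rw [not_lt] at hcase
        have h2b : (1 : ℝ) ≤ (2 : ℝ) ^ b := one_le_pow₀ (by norm_num)
        obtain ⟨i, hi1, hi2⟩ := exists_nat_pow_near (le_trans h2b hcase)
          (by norm_num : (1 : ℝ) < 2)
        have hib : b ≤ i := by
          have : (2 : ℝ) ^ b < (2 : ℝ) ^ (i + 1) := lt_of_le_of_lt hcase hi2
          have := (pow_lt_pow_iff_right₀ (by norm_num : (1 : ℝ) < 2)).1 this
          omega
        have hs4 : s ≤ 4 * (2 : ℝ) ^ j := by
          rw [hs]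
          refine max_le (by linarith) ?_
          calc (n : ℝ) * ‖z.2 - y.2‖ ≤ (2 * (2 : ℝ) ^ j) * 2 := by
                gcongr; linarith
            _ = 4 * (2 : ℝ) ^ j := by ring
        have hs5 : s < 4 * (2 : ℝ) ^ j := by
          rw [hs]
          refine max_lt (by linarith) ?_
          have hn4 : (n : ℝ) < 2 * (2 : ℝ) ^ j := by
            rw [← pow_succ']; exact_mod_cast lt_of_le_of_lt hnm0 hm0
          calc (n : ℝ) * ‖z.2 - y.2‖ ≤ n * 2 := by gcongr
            _ < 4 * (2 : ℝ) ^ j := by linarith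
        have hij : i ≤ j + 1 := by
          have e : (4 : ℝ) * (2 : ℝ) ^ j = (2 : ℝ) ^ (j + 2) := by rw [pow_add]; ring
          have : (2 : ℝ) ^ i < (2 : ℝ) ^ (j + 2) := by rw [← e]; linarith
          have := (pow_lt_pow_iff_right₀ (by norm_num : (1 : ℝ) < 2)).1 this
          omega
        have hmn : m - n < 2 ^ (i + 1) := by
          have : ((m - n : ℕ) : ℝ) < ((2 ^ (i + 1) : ℕ) : ℝ) := by
            rw [hcast]; push_cast; linarith
          exact_mod_cast this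
        have hp1 : pz ε m (δi i) z y = 1 := by
          unfold pz
          rw [if_pos ⟨hy.1, hpar _ hi2.le⟩]
        refine le_trans ?_ le_add_self
        refine le_trans ?_ (Finset.single_le_sum (f := fun i => if m - n < 2 ^ (i + 1) then
          pz ε m (δi i) z y * Ki i else 0) (fun _ _ => bot_le) (Finset.mem_Icc.2 ⟨hib, hij⟩))
        rw [if_pos hmn, hp1, one_mul]
        obtain ⟨u1, u2, u3, u4⟩ := hscale i hib
        have u5 : (2 : ℝ) ^ i ≤ 2 * (2 : ℝ) ^ j := by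
          rw [← pow_succ']; exact pow_le_pow_right₀ (by norm_num) hij
        have v0 : (0 : ℝ) ≤ (2 : ℝ) ^ (i - k) := by positivity
        refine (two' hc (n := n) (m := m) (t := (2 : ℝ) ^ (i - k)) (t' := (2 : ℝ) ^ (i - k))
          (r := (2 : ℝ) ^ (i - 2)) (r' := (2 : ℝ) ^ (i - 2)) (R := R) (Q := Q) hA hn00 hm00 v0
          (by linarith) u2 (by linarith) v0 (by linarith) u2 (by linarith) (by linarith)
          (by linarith) (by linarith) (by linarith) hRQ hz2 hy.2 hz1 hy.1 (by linarith)).trans ?_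
        simp only [hKi]
        rw [mul_assoc, ← ENNReal.ofReal_mul (add_nonneg (hc.rng _).1
          (mul_nonneg (by linarith) (Real.exp_pos _).le))]
        refine mul_le_mul_right (ENNReal.ofReal_le_ofReal ?_) _
        rw [sq]
        have w0 : 0 ≤ pp d ε ((2 : ℝ) ^ (i - k)) + C * Real.exp (-(2 : ℝ) ^ (i - 2)) :=
          add_nonneg (hc.rng _).1 (mul_nonneg (by linarith) (Real.exp_pos _).le)
        exact mul_le_mul (hqiC i) (hqiC i) w0 (w0.trans (hqiC i))
    · have : fz ε m y = 0 := by simp [fz, hy]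
      rw [this, mul_zero, zero_mul]; exact bot_le
  -- integration over the second meteor
  set K : ℝ≥0∞ := (if m - n < 2 ^ b then ENNReal.ofReal (CG * δa) * Ka else 0) +
    ∑ i ∈ Finset.Icc b (j + 1), if m - n < 2 ^ (i + 1) then ENNReal.ofReal (CG * δi i) * Ki i
      else 0 with hK
  have hin : ∀ z : X d, ∫⁻ y, gz ε n m (z, y) * poi (mB B)
      {F | res (Metric.ball 0 R) F ∈ A ∧ al2 ε z n y m F} ∂(mB B) ≤ fz ε n z * K := by
    intro z
    by_cases hz : ‖pos z n‖ ≤ ε ∧ ‖z.2‖ = 1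
    · have e2 : fz ε n z = 1 := by simp [fz, hz]
      rw [e2, one_mul]
      refine (lintegral_mono fun y => hpt z y hz.1 hz.2).trans ?_
      rw [lintegral_add_left, lintegral_finsetSum]
      · rw [hK]
        refine add_le_add ?_ (Finset.sum_le_sum fun i _ => ?_)
        · split_ifs
          · rw [lintegral_mul_const _ (meas_pz _ _ _ _)]
            gcongr
            exact Ipz hCG2 B hBm m δa hδa0 z hz.2
          · simp
        · split_ifs
          · rw [lintegral_mul_const _ (meas_pz _ _ _ _)]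
            gcongr
            exact Ipz hCG2 B hBm m (δi i) (hδi0 i) z hz.2
          · simp
      · intro i _
        split_ifs
        · exact (meas_pz _ _ _ _).mul_const _
        · exact measurable_const
      · split_ifs
        · exact (meas_pz _ _ _ _).mul_const _
        · exact measurable_const
    · have e2 : fz ε n z = 0 := by simp [fz, hz]
      rw [e2, zero_mul]
      simp_rw [gz_eq, e2]
      simp
  have hoff : ∫⁻ z, ∫⁻ y, gz ε n m (z, y) * poi (mB B)
      {F | res (Metric.ball 0 R) F ∈ A ∧ al2 ε z n y m F} ∂(mB B) ∂(mB B) ≤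
      ENNReal.ofReal CG * K := by
    refine (lintegral_mono hin).trans ?_
    rw [lintegral_mul_const _ (meas_fz ε n)]
    gcongr
    exact Ifz hCG B hBm n
  refine (add_le_add hdiag hoff).trans ?_
  -- the final computation
  have hCG0 : 0 ≤ CG := by linarith
  have hC0 : 0 ≤ C := by linarith
  have f1 : ENNReal.ofReal CG * (if m - n < 2 ^ b then ENNReal.ofReal (CG * δa) * Ka else 0) ≤
      PQ d R A * ENNReal.ofReal (2 * CG ^ 2 * C ^ 2 * (if m - n < 2 ^ b then
        (2 : ℝ) ^ b / (2 : ℝ) ^ j * q else 0)) := by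
    split_ifs
    · calc ENNReal.ofReal CG * (ENNReal.ofReal (CG * δa) * Ka)
          = PQ d R A * ENNReal.ofReal (CG * (CG * δa) * (C * q)) := by
            rw [hKa, ENNReal.ofReal_mul (p := CG * (CG * δa)) (by positivity),
              ENNReal.ofReal_mul (p := CG) (q := CG * δa) hCG0]
            ring
        _ ≤ _ := by
            refine mul_le_mul_right (ENNReal.ofReal_le_ofReal ?_) _
            have : CG * (CG * δa) * (C * q) = CG ^ 2 * C * (δa * q) := by ring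
            rw [this]
            refine mul_le_mul_of_nonneg_right ?_ (by positivity)
            have h4 : 0 ≤ CG ^ 2 * C := by positivity
            calc CG ^ 2 * C ≤ CG ^ 2 * C * (2 * C) := le_mul_of_one_le_right h4 (by linarith)
              _ = 2 * CG ^ 2 * C ^ 2 := by ring
    · simp
  have f2 : ∀ i, ENNReal.ofReal CG * (if m - n < 2 ^ (i + 1) then
      ENNReal.ofReal (CG * δi i) * Ki i else 0) ≤
      PQ d R A * ENNReal.ofReal (2 * CG ^ 2 * C ^ 2 * (if m - n < 2 ^ (i + 1) then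
        (2 : ℝ) ^ i / (2 : ℝ) ^ j * (qi i) ^ 2 else 0)) := by
    intro i
    split_ifs
    · refine le_of_eq ?_
      have hd0 := (hδi0 i).le
      calc ENNReal.ofReal CG * (ENNReal.ofReal (CG * δi i) * Ki i)
          = PQ d R A * ENNReal.ofReal (CG * (CG * δi i) * (C * qi i) ^ 2) := by
            simp only [hKi]
            rw [ENNReal.ofReal_mul (p := CG * (CG * δi i)) (by positivity),
              ENNReal.ofReal_mul (p := CG) (q := CG * δi i) hCG0]
            ring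
        _ = _ := by
            congr 2
            simp only [hδi]
            rw [pow_succ]
            ring
    · simp
  have g1 : ENNReal.ofReal CG * K ≤ PQ d R A * ENNReal.ofReal (2 * CG ^ 2 * C ^ 2 *
      (if m - n < 2 ^ b then (2 : ℝ) ^ b / (2 : ℝ) ^ j * q else 0)) +
      ∑ i ∈ Finset.Icc b (j + 1), PQ d R A * ENNReal.ofReal (2 * CG ^ 2 * C ^ 2 *
        (if m - n < 2 ^ (i + 1) then (2 : ℝ) ^ i / (2 : ℝ) ^ j * (qi i) ^ 2 else 0)) := by
    rw [hK, mul_add, Finset.mul_sum]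
    exact add_le_add f1 (Finset.sum_le_sum fun i _ => f2 i)
  refine (add_le_add le_rfl g1).trans (le_of_eq ?_)
  rw [← Finset.mul_sum, ← mul_add, ← mul_add]
  congr 1
  have nn1 : 0 ≤ 2 * CG ^ 2 * C ^ 2 * (if (m : ℝ) - n ≤ 2 * ε then q else 0) := by
    split_ifs <;> positivity
  have nn2 : 0 ≤ 2 * CG ^ 2 * C ^ 2 * (if m - n < 2 ^ b then (2 : ℝ) ^ b / (2 : ℝ) ^ j * q
      else 0) := by
    split_ifs <;> positivity
  have nn3 : ∀ i ∈ Finset.Icc b (j + 1), 0 ≤ 2 * CG ^ 2 * C ^ 2 * (if m - n < 2 ^ (i + 1) then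
      (2 : ℝ) ^ i / (2 : ℝ) ^ j * (qi i) ^ 2 else 0) := by
    intro i _
    split_ifs
    · positivity
    · simp
  rw [← ENNReal.ofReal_sum_of_nonneg nn3, ← ENNReal.ofReal_add nn2 (Finset.sum_nonneg nn3),
    ← ENNReal.ofReal_add nn1 (add_nonneg nn2 (Finset.sum_nonneg nn3))]
  congr 1
  have hfin : ∀ (c x y : ℝ) (f : ℕ → ℝ) (s : Finset ℕ),
      c * x + (c * y + ∑ i ∈ s, c * f i) = c * (x + y + ∑ i ∈ s, f i) := by
    intro c x y f s
    rw [← Finset.mul_sum]; ring
  exact hfin _ _ _ _ _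

end Run7.h391.Met
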