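import Pool.Agent.Run7.h146.Met.I2

/-!
# Tools for the second moments (pieces CR and SMA of the project of MP_dd21b1_pr)
-/

set_option autoImplicit false

open MeasureTheory Filter Topology ENNReal
open Run7.h146.Met
open Classical

namespace Run7.h391.Met

section basic

variable {d : ℕ} {ε : ℝ}

lemma al2_mono {z y : X d} {t t' s s' : ℝ} {F : Finset (X d)} (h1 : s ≤ t) (h2 : s' ≤ t')
    (h : al2 ε z t y t' F) : al2 ε z s y s' F :=
  ⟨lt_of_le_of_lt (ENNReal.ofReal_le_ofReal h1) h.1,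
    lt_of_le_of_lt (ENNReal.ofReal_le_ofReal h2) h.2⟩

lemma alive_mono {z : X d} {t s : ℝ} {F : Finset (X d)} (h1 : s ≤ t)
    (h : alive ε z t F) : alive ε z s F := lt_of_le_of_lt (ENNReal.ofReal_le_ofReal h1) h

lemma norm_smul_unit {z : X d} (hz : ‖z.2‖ = 1) {t : ℝ} (ht : 0 ≤ t) : ‖t • z.2‖ = t := by
  rw [norm_smul, hz, mul_one, Real.norm_of_nonneg ht]

lemma far {z : X d} (hz : ‖z.2‖ = 1) {t : ℝ} (ht : 0 ≤ t) (h : ‖pos z t‖ ≤ ε) :
    t - ε ≤ ‖z.1‖ ∧ ‖z.1‖ ≤ t + ε := by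
  have h1 := norm_smul_unit hz ht
  have e1 : z.1 = pos z t - t • z.2 := by simp [pos]
  have e2 : t • z.2 = pos z t - z.1 := by simp [pos]
  constructor
  · have : ‖t • z.2‖ ≤ ‖pos z t‖ + ‖z.1‖ := by rw [e2]; exact norm_sub_le _ _
    linarith
  · have : ‖z.1‖ ≤ ‖pos z t‖ + ‖t • z.2‖ := by
      conv_lhs => rw [e1]
      exact norm_sub_le _ _
    linarith

lemma diag {z : X d} (hz : ‖z.2‖ = 1) {n m : ℝ} (hnm : n ≤ m) (h1 : ‖pos z n‖ ≤ ε)
    (h2 : ‖pos z m‖ ≤ ε) : m - n ≤ 2 * ε := by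
  have e : (m - n) • z.2 = pos z m - pos z n := by simp [pos, sub_smul]
  have h3 := norm_smul_unit hz (sub_nonneg.2 hnm)
  rw [e] at h3
  have := norm_sub_le (pos z m) (pos z n)
  linarith

/-- the indicator of covering the origin at time `t` with unit speed -/
noncomputable def fz (ε t : ℝ) (z : X d) : ℝ≥0∞ := if ‖pos z t‖ ≤ ε ∧ ‖z.2‖ = 1 then 1 else 0

/-- the indicator for pairs -/
noncomputable def gz (ε t t' : ℝ) (p : X d × X d) : ℝ≥0∞ :=
  if (‖pos p.1 t‖ ≤ ε ∧ ‖p.1.2‖ = 1) ∧ (‖pos p.2 t'‖ ≤ ε ∧ ‖p.2.2‖ = 1) then 1 else 0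

lemma cont_pos (t : ℝ) : Continuous fun z : X d => pos z t := by
  unfold pos; fun_prop

lemma meas_cov (ε t : ℝ) : MeasurableSet {z : X d | ‖pos z t‖ ≤ ε ∧ ‖z.2‖ = 1} := by
  apply MeasurableSet.inter
  · exact (isClosed_le (cont_pos t).norm continuous_const).measurableSet
  · exact (isClosed_eq (continuous_snd.norm) continuous_const).measurableSet

lemma meas_fz (ε t : ℝ) : Measurable (fz (d := d) ε t) :=
  Measurable.ite (meas_cov ε t) measurable_const measurable_const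

lemma meas_gz (ε t t' : ℝ) : Measurable (gz (d := d) ε t t') :=
  Measurable.ite (((meas_cov ε t).preimage measurable_fst).inter
    ((meas_cov ε t').preimage measurable_snd)) measurable_const measurable_const

/-- the product of the two occupation numbers -/
lemma UnUn {F : Finset (X d)} (hF : ∀ y ∈ F, ‖y.2‖ = 1) {n m : ℝ} (hnm : n ≤ m) :
    Un ε n F * Un ε m F ≤ (if m - n ≤ 2 * ε then Un ε n F else 0) +
      ∑ z ∈ F, ∑ y ∈ del z F, if ENNReal.ofReal n < dt ε F z ∧ ENNReal.ofReal m < dt ε F y then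
        gz ε n m (z, y) else 0 := by
  have hsplit : (if m - n ≤ 2 * ε then Un ε n F else 0) =
      ∑ z ∈ F, if m - n ≤ 2 * ε then
        (if ENNReal.ofReal n < dt ε F z ∧ ‖pos z n‖ ≤ ε then (1 : ℝ≥0∞) else 0) else 0 := by
    split_ifs
    · rfl
    · simp
  rw [hsplit, ← Finset.sum_add_distrib]
  unfold Un
  rw [Finset.sum_mul]
  refine Finset.sum_le_sum fun z hz => ?_
  rw [Finset.mul_sum, ← Finset.add_sum_erase F _ hz]
  refine add_le_add ?_ ?_
  · by_cases ha : ENNReal.ofReal n < dt ε F z ∧ ‖pos z n‖ ≤ ε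
    · by_cases hb : ENNReal.ofReal m < dt ε F z ∧ ‖pos z m‖ ≤ ε
      · rw [if_pos ha, if_pos hb, if_pos (diag (hF z hz) hnm ha.2 hb.2), mul_one]
      · rw [if_neg hb, mul_zero]; exact bot_le
    · rw [if_neg ha, zero_mul]; exact bot_le
  · have hdel : del z F = F.erase z := by
      unfold del; congr; exact Subsingleton.elim _ _
    rw [hdel]
    refine Finset.sum_le_sum fun y hy => ?_
    have hyF : y ∈ F := Finset.mem_of_mem_erase hy
    have u1 := hF z hz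
    have u2 := hF y hyF
    by_cases ha : ENNReal.ofReal n < dt ε F z ∧ ‖pos z n‖ ≤ ε
    · by_cases hb : ENNReal.ofReal m < dt ε F y ∧ ‖pos y m‖ ≤ ε
      · rw [if_pos ha, if_pos hb, if_pos ⟨ha.1, hb.1⟩]
        simp [gz, ha.2, hb.2, u1, u2]
      · rw [if_neg hb, mul_zero]; exact bot_le
    · rw [if_neg ha, zero_mul]; exact bot_le

end basic

/-- the first moment at one time on the event `A` -/
lemma first (hMB : S_MB) (hSING : S_SING) {d : ℕ} {ε κ C r₀ : ℝ} (hd : 0 < d)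
    (hε : 0 < ε) (hc : Core d ε κ C r₀) {CG : ℝ} (hCG0 : 1 ≤ CG)
    (hCG : ∀ (B : Set (V d)) (t : ℝ), MeasurableSet B →
      mB B {z | ‖pos z t‖ ≤ ε} ≤ ENNReal.ofReal CG)
    {n t r R Q : ℝ} (hn : 0 ≤ n) {A : Set (Finset (X d))} (hA : MeasurableSet A)
    (ht0 : 0 ≤ t) (htn : t ≤ n) (htr : t ≤ κ * r) (hr : r₀ ≤ r)
    (h1 : n + ε + r ≤ Q) (h2 : R + r ≤ n - ε) (hRQ : R ≤ Q) :
    ∫⁻ F in {F | res (Metric.ball 0 R) F ∈ A}, Un ε n F ∂(PQ d Q) ≤
      PQ d R A * ENNReal.ofReal (CG * (pp d ε t + C * Real.exp (-r))) := by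
  have hr1 : 1 ≤ r := le_trans hc.loc.2.2.2.1 hr
  have hC1 : 1 ≤ C := hc.loc.2.2.1
  set B : Set (V d) := Metric.ball 0 Q with hB
  have hBm : MeasurableSet B := Metric.isOpen_ball.measurableSet
  have hBv : volume B ≠ ⊤ := measure_ball_lt_top.ne
  obtain ⟨-, -, -, hMB2⟩ := hMB d hd
  obtain ⟨-, -, -, hunit⟩ := hMB2 B hBm hBv
  have hae : ∀ᵐ F ∂(poi (mB B)), ∀ y ∈ F, ‖y.2‖ = 1 := by
    rw [ae_iff]; simpa using hunit
  have e1 : ∫⁻ F in {F | res (Metric.ball 0 R) F ∈ A}, Un ε n F ∂(PQ d Q) ≤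
      ∫⁻ F in {F | res (Metric.ball 0 R) F ∈ A}, (∑ z ∈ F, if ENNReal.ofReal n < dt ε F z then
        fz ε n z else 0) ∂(poi (mB B)) := by
    refine lintegral_mono_ae (ae_restrict_of_ae ?_)
    filter_upwards [hae] with F hF
    unfold Un
    refine Finset.sum_le_sum fun z hz => ?_
    by_cases ha : ENNReal.ofReal n < dt ε F z ∧ ‖pos z n‖ ≤ ε
    · rw [if_pos ha, if_pos ha.1]; simp [fz, ha.2, hF z hz]
    · rw [if_neg ha]; exact bot_le
  refine e1.trans ?_
  rw [hSING d ε hd hε n R B A (fz ε n) hBm hBv hA (meas_fz ε n) (by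
    intro z hz
    unfold fz
    rw [if_neg]
    rintro ⟨h3, h4⟩
    have := (far h4 hn h3).1
    rw [mem_ball_zero_iff] at hz
    linarith)]
  have key : ∀ z : X d, fz ε n z * poi (mB B) {F | res (Metric.ball 0 R) F ∈ A ∧ alive ε z n F} ≤
      fz ε n z * (PQ d R A * ENNReal.ofReal (pp d ε t + C * Real.exp (-r))) := by
    intro z
    by_cases hz : ‖pos z n‖ ≤ ε ∧ ‖z.2‖ = 1
    · refine mul_le_mul_right ?_ _
      have hf := far hz.2 hn hz.1
      refine le_trans (measure_mono ?_) (hc.one r t R z B A hr ht0 htr hz.2 hBm hBv hA ?_ ?_ ?_).1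
      · rintro F ⟨h3, h4⟩; exact ⟨h3, alive_mono htn h4⟩
      · intro x hx
        rw [mem_ball_zero_iff]
        rw [Metric.mem_ball, dist_eq_norm] at hx
        have := norm_sub_norm_le x z.1
        linarith
      · exact Metric.ball_subset_ball hRQ
      · apply Metric.ball_disjoint_ball
        rw [dist_zero_right]; linarith
    · simp [fz, hz]
  refine (lintegral_mono key).trans ?_
  rw [lintegral_mul_const _ (meas_fz ε n)]
  have e2 : ∫⁻ z, fz ε n z ∂(mB B) ≤ ENNReal.ofReal CG := by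
    unfold fz
    rw [show (fun z : X d => if ‖pos z n‖ ≤ ε ∧ ‖z.2‖ = 1 then (1 : ℝ≥0∞) else 0) =
      Set.indicator {z : X d | ‖pos z n‖ ≤ ε ∧ ‖z.2‖ = 1} 1 from by
        funext z; simp [Set.indicator_apply]]
    rw [lintegral_indicator_one (meas_cov ε n)]
    exact (measure_mono fun z hz => hz.1).trans (hCG B n hBm)
  calc (∫⁻ z, fz ε n z ∂(mB B)) * (PQ d R A * ENNReal.ofReal (pp d ε t + C * Real.exp (-r)))
      ≤ ENNReal.ofReal CG * (PQ d R A * ENNReal.ofReal (pp d ε t + C * Real.exp (-r))) := by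
        gcongr
    _ = PQ d R A * ENNReal.ofReal (CG * (pp d ε t + C * Real.exp (-r))) := by
        rw [ENNReal.ofReal_mul (by linarith)]; ring

/-- two meteors, the probability of the joint survival -/
lemma two' {d : ℕ} {ε κ C r₀ : ℝ} (hc : Core d ε κ C r₀) {n m t t' r r' R Q : ℝ}
    {A : Set (Finset (X d))} (hA : MeasurableSet A) (hn : 0 ≤ n) (hm : 0 ≤ m)
    (ht0 : 0 ≤ t) (htn : t ≤ n) (htr : t ≤ κ * r) (hr : r₀ ≤ r)
    (ht0' : 0 ≤ t') (htn' : t' ≤ m) (htr' : t' ≤ κ * r') (hr' : r₀ ≤ r')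
    (h1 : n + ε + r ≤ Q) (h1' : m + ε + r' ≤ Q) (h2 : R + r ≤ n - ε) (h2' : R + r' ≤ m - ε)
    (hRQ : R ≤ Q) {z y : X d} (hz : ‖z.2‖ = 1) (hy : ‖y.2‖ = 1) (hzn : ‖pos z n‖ ≤ ε)
    (hym : ‖pos y m‖ ≤ ε) (hzy : r + r' ≤ ‖z.1 - y.1‖) :
    poi (mB (Metric.ball (0 : V d) Q)) {F | res (Metric.ball 0 R) F ∈ A ∧ al2 ε z n y m F} ≤
      PQ d R A * ENNReal.ofReal (pp d ε t + C * Real.exp (-r)) *
        ENNReal.ofReal (pp d ε t' + C * Real.exp (-r')) := by
  have hf := far hz hn hzn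
  have hf' := far hy hm hym
  refine le_trans (measure_mono ?_) (hc.two r t r' t' R z y (Metric.ball 0 Q) A hr ht0 htr hr' ht0'
    htr' hz hy Metric.isOpen_ball.measurableSet measure_ball_lt_top.ne hA ?_ ?_ ?_ ?_ ?_ ?_)
  · rintro F ⟨h3, h4⟩; exact ⟨h3, al2_mono htn htn' h4⟩
  · intro x hx
    rw [mem_ball_zero_iff]
    rw [Metric.mem_ball, dist_eq_norm] at hx
    have := norm_sub_norm_le x z.1
    linarith
  · intro x hx
    rw [mem_ball_zero_iff]
    rw [Metric.mem_ball, dist_eq_norm] at hx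
    have := norm_sub_norm_le x y.1
    linarith
  · exact Metric.ball_subset_ball hRQ
  · apply Metric.ball_disjoint_ball
    rw [dist_zero_right]; linarith
  · apply Metric.ball_disjoint_ball
    rw [dist_zero_right]; linarith
  · apply Metric.ball_disjoint_ball
    rw [dist_eq_norm]; exact hzy

end Run7.h391.Met
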